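import Mathlib
import Pool.Agent.Lib.helper2.FPP

set_option autoImplicit false

namespace Pool.Agent.Results.MP_c7efa6_co.Disproof

/-- The comparability graph of an ordered set. -/
def compGraph (P : Type) [PartialOrder P] : SimpleGraph P where
  Adj x y := x ≠ y ∧ (x ≤ y ∨ y ≤ x)
  symm := ⟨fun _ _ h => ⟨h.1.symm, h.2.symm⟩⟩
  loopless := ⟨fun _ h => h.1 rfl⟩

/-- The clique graph: vertices are the maximal cliques, two distinct ones being adjacent when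
they share a vertex. -/
def cliqueGraph (G : Σ V : Type, SimpleGraph V) : Σ V : Type, SimpleGraph V :=
  ⟨{Q : Set G.1 // Maximal G.2.IsClique Q},
    { Adj := fun Q R => Q ≠ R ∧ (Q.1 ∩ R.1).Nonempty
      symm := ⟨fun _ _ h => ⟨h.1.symm, by rw [Set.inter_comm]; exact h.2⟩⟩
      loopless := ⟨fun _ h => h.1 rfl⟩ }⟩

def Rl (G : Σ V : Type, SimpleGraph V) (x y : G.1) : Prop := x = y ∨ G.2.Adj x y

def Coc (G : Σ V : Type, SimpleGraph V) : Prop :=
  Finite G.1 ∧ ∃ c : G.1 → G.1 → ZMod 2,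
    (∀ x y z, Rl G x y → Rl G y z → Rl G x z → c x y + c y z = c x z) ∧
    ¬ ∃ b : G.1 → ZMod 2, ∀ x y, Rl G x y → c x y = b x + b y

lemma Coc.nontrivial {G : Σ V : Type, SimpleGraph V} (h : Coc G) : Nontrivial G.1 := by
  obtain ⟨-, c, h1, h2⟩ := h
  by_contra hn
  rw [not_nontrivial_iff_subsingleton] at hn
  refine h2 ⟨fun _ => 0, fun x y _ => ?_⟩
  rw [Subsingleton.elim y x]
  simpa using h1 x x x (Or.inl rfl) (Or.inl rfl) (Or.inl rfl)

lemma Coc.step {G : Σ V : Type, SimpleGraph V} (h : Coc G) : Coc (cliqueGraph G) := by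
  classical
  have hnt := h.nontrivial
  obtain ⟨hfin, c, h1, h2⟩ := h
  have two : (2 : ZMod 2) = 0 := rfl
  have rq : ∀ (Q : (cliqueGraph G).1) x y, x ∈ Q.1 → y ∈ Q.1 → Rl G x y := fun Q x y hx hy => by
    by_cases e : x = y
    · exact Or.inl e
    · exact Or.inr (Q.2.1 hx hy e)
  have cq : ∀ (Q : (cliqueGraph G).1) x y z, x ∈ Q.1 → y ∈ Q.1 → z ∈ Q.1 → c x y + c y z = c x z :=
    fun Q x y z hx hy hz => h1 x y z (rq Q _ _ hx hy) (rq Q _ _ hy hz) (rq Q _ _ hx hz)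
  have ex : ∀ x y, Rl G x y → ∃ Q : (cliqueGraph G).1, x ∈ Q.1 ∧ y ∈ Q.1 := by
    intro x y hxy
    have : G.2.IsClique {x, y} := by
      rcases hxy with rfl | h
      · simp
      · exact SimpleGraph.isClique_pair.2 fun _ => h
    obtain ⟨Q, hQ, hm⟩ := Finite.exists_le_maximal this
    exact ⟨⟨Q, hm⟩, hQ (by simp), hQ (by simp)⟩
  have ne : ∀ Q : (cliqueGraph G).1, ∃ x, x ∈ Q.1 := by
    intro Q
    by_contra hh
    push Not at hh
    obtain ⟨x⟩ : Nonempty G.1 := inferInstance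
    exact hh x (Q.2.2 (y := {x}) (by simp) (fun y hy => absurd hy (hh y)) rfl)
  choose q hq using ne
  have key : ∀ Q R : (cliqueGraph G).1, ∃ v : ZMod 2, ∀ x, x ∈ Q.1 → x ∈ R.1 →
      v = c (q Q) x + c x (q R) := by
    intro Q R
    by_cases h : ∃ x, x ∈ Q.1 ∧ x ∈ R.1
    · obtain ⟨y, hy1, hy2⟩ := h
      refine ⟨c (q Q) y + c y (q R), fun x hx1 hx2 => ?_⟩
      rw [← cq Q _ y x (hq Q) hy1 hx1, ← cq R y x _ hy2 hx2 (hq R)]; ring
    · exact ⟨0, fun x h1 h2 => absurd ⟨x, h1, h2⟩ h⟩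
  choose c' hc' using key
  have rk : ∀ Q R, Rl (cliqueGraph G) Q R → ∃ x, x ∈ Q.1 ∧ x ∈ R.1 := by
    rintro Q R (rfl | h)
    · exact ⟨_, hq Q, hq Q⟩
    · exact h.2
  have kr : ∀ (Q R : (cliqueGraph G).1) x, x ∈ Q.1 → x ∈ R.1 → Rl (cliqueGraph G) Q R := by
    intro Q R x h1 h2
    by_cases e : Q = R
    · exact Or.inl e
    · exact Or.inr ⟨e, x, h1, h2⟩
  refine ⟨by unfold cliqueGraph; infer_instance, c', fun Q R S a1 a2 a3 => ?_, ?_⟩
  · obtain ⟨x, x1, x2⟩ := rk _ _ a1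
    obtain ⟨y, y1, y2⟩ := rk _ _ a2
    obtain ⟨z, z1, z2⟩ := rk _ _ a3
    rw [hc' Q R x x1 x2, hc' R S y y1 y2, hc' Q S z z1 z2]
    have e1 := cq R x _ y x2 (hq R) y1
    have e2 := cq Q _ z x (hq Q) z1 x1
    have e3 := cq S z y _ z2 y2 (hq S)
    have e4 := h1 z x y (rq Q _ _ z1 x1) (rq R _ _ x2 y1) (rq S _ _ z2 y2)
    linear_combination e1 - e2 + e3 + e4
  · rintro ⟨b, hb⟩
    choose Q hQ _ using fun x => ex x x (Or.inl rfl)
    refine h2 ⟨fun x => b (Q x) + c (q (Q x)) x, fun x y hxy => ?_⟩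
    obtain ⟨R, hx, hy⟩ := ex x y hxy
    have e1 := (hc' _ _ x (hQ x) hx).symm.trans (hb _ _ (kr _ _ x (hQ x) hx))
    have e2 := (hc' _ _ y (hQ y) hy).symm.trans (hb _ _ (kr _ _ y (hQ y) hy))
    have e3 := cq R x y _ hx hy (hq R)
    linear_combination e3 + e1 - e2 + (b (Q x) - c y (q R) - c (q (Q x)) x - b (Q x) - b (Q y)
      - c (q (Q y)) y + c y (q R) + c (q (Q y)) y) * two

open Pool.Agent.Lib.helper2.FPP

def up (x : ℕ) : ℕ := [1841, 1874, 1988, 1448, 1552, 1312, 832, 1408, 256, 512, 1024].getD x 0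

def dn (x : ℕ) : ℕ := [1, 2, 4, 8, 19, 41, 70, 140, 495, 599, 1215].getD x 0

def dom : List ℕ := [206, 173, 59, 599, 492, 726, 1209, 627, 1552, 1448, 832]

def co (x : ℕ) : ℕ := [0, 256, 1280, 128, 0, 0, 256, 1288, 198, 0, 132].getD x 0

open Tr in
def tr : Tr :=
  (B 8 4 (B 0 1 (B 1 0 (B 4 8 (B 10 8 (B 9 8 (B 5 1 (B 3 1 (B 6 0 (B 2 0 L L) L) L) L) L) L) L) L)
  L) (B 8 9 (B 1 0 (B 10 8 (B 2 0 (B 7 0 (B 3 0 L L) L) (B 2 1 (B 6 4 (B 9 10 (B 4 5 L L) L) L)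
  L)) (B 10 9 L L)) (B 1 2 L L)) (B 8 10 (B 10 6 (B 1 2 (B 2 1 (B 6 10 (B 9 10 (B 4 2 (B 0 2 (B 5
  2 (B 3 2 L L) L) L) L) L) L) L) L) (B 10 8 (B 3 0 L (B 3 1 (B 5 1 (B 0 1 (B 7 1 (B 2 1 (B 9 8 L
  (B 9 10 L L)) L) L) L) L) (B 3 2 L L))) (B 10 9 (B 0 1 (B 4 6 (B 1 2 (B 9 8 (B 6 7 L L) L) L) L)
  (B 0 2 (B 5 2 (B 3 2 L L) L) L)) L))) L)))

def X : Type := Fin 11

instance : DecidableEq X := inferInstanceAs (DecidableEq (Fin 11))
instance : Fintype X := inferInstanceAs (Fintype (Fin 11))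

def pt (i : Fin 11) : X := i
def val (x : X) : ℕ := Fin.val (n := 11) x

instance : PartialOrder X where
  le a b := (up (val a)).testBit (val b) = true
  le_refl := by decide +kernel
  le_trans := by decide +kernel
  le_antisymm := by decide +kernel

instance (a b : X) : Decidable (a ≤ b) :=
  inferInstanceAs (Decidable ((up (val a)).testBit (val b) = true))

lemma hup (x y : ℕ) (h : (up x).testBit y = true) : x < 11 ∧ y < 11 := by
  have hx : x < 11 := by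
    by_contra hx
    rw [up, List.getD_eq_default _ _ (by simpa using hx)] at h
    simp at h
  refine ⟨hx, ?_⟩
  by_contra hy
  have : ∀ x < 11, up x < 2 ^ 11 := by decide
  rw [Nat.testBit_lt_two_pow ((this x hx).trans_le (Nat.pow_le_pow_right (by norm_num) (by omega)))] at h
  simp at h

lemma fppX (f : X → X) (hf : Monotone f) : ∃ x, f x = x :=
  fpp (X := X) 11 (Equiv.refl (Fin 11)) up dn dom tr (by norm_num) (fun _ _ => Iff.rfl) hup
    (by decide +kernel) rfl (by decide +kernel) (by decide +kernel) f hf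

def cX (x y : X) : ZMod 2 := if (co (val x)).testBit (val y) then 1 else 0

lemma base : Coc ⟨X, compGraph X⟩ := by
  refine ⟨(inferInstance : Finite X), cX, ?_, ?_⟩
  · show ∀ x y z : X, (x = y ∨ (x ≠ y ∧ (x ≤ y ∨ y ≤ x))) → (y = z ∨ (y ≠ z ∧ (y ≤ z ∨ z ≤ y))) →
      (x = z ∨ (x ≠ z ∧ (x ≤ z ∨ z ≤ x))) → cX x y + cX y z = cX x z
    decide +kernel
  · rintro ⟨b, hb⟩
    have e1 := hb (pt 0) (pt 4) (Or.inr ⟨by decide, by decide⟩)
    have e2 := hb (pt 4) (pt 1) (Or.inr ⟨by decide, by decide⟩)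
    have e3 := hb (pt 1) (pt 8) (Or.inr ⟨by decide, by decide⟩)
    have e4 := hb (pt 8) (pt 0) (Or.inr ⟨by decide, by decide⟩)
    revert e1 e2 e3 e4
    generalize b (pt 0) = u1
    generalize b (pt 4) = u2
    generalize b (pt 1) = u3
    generalize b (pt 8) = u4
    revert u1 u2 u3 u4
    decide

theorem result : ∃ (P : Type) (_ : Finite P) (_ : Nonempty P) (_ : PartialOrder P),
    (∀ f : P → P, Monotone f → ∃ x, f x = x) ∧
      ∀ n : ℕ, Nontrivial (cliqueGraph^[n] ⟨P, compGraph P⟩).1 := by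
  refine ⟨X, inferInstance, ⟨pt 0⟩, inferInstance, fppX, fun n => Coc.nontrivial ?_⟩
  induction n with
  | zero => exact base
  | succ n ih => rw [Function.iterate_succ_apply']; exact ih.step

end Pool.Agent.Results.MP_c7efa6_co.Disproof
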